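import Pool.Agent.H56.ER2.Targets

/-!
# MP_816b90_co, row `ASZ` (helper98): from the order relations to two paths
-/

set_option autoImplicit false

namespace Pool.Agent.H98.ER2

open Pool.Agent.H48.ER Pool.Agent.H52.ER2 Pool.Agent.H66.ER2 Pool.Agent.H56.ER2

/-- a chordless path as a function -/
theorem toFn {V : Type} {G : SimpleGraph V} {n : ℕ} {x y : V} {R : Set V} (h : IP G n x y R) :
    ∃ g : ℕ → V, PF G n g ∧ g 0 = x ∧ g n = y ∧ (∀ i, i ≤ n → g i ∈ R) := by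
  obtain ⟨g, g0, gn, gi, ga, hR⟩ := h
  exact ⟨g, ⟨gi, ga⟩, g0, gn, fun i hi => by rw [hR]; exact ⟨i, hi, rfl⟩⟩

theorem pf_ASZ : T_ASZ := by
  intro V G v n z b a a' h1 h2
  obtain ⟨q, R, hO, haA, haR, ha⟩ := h1
  obtain ⟨p, R', hO', haA', haR', ha'⟩ := h2
  obtain ⟨x, px, x0, xq, hx⟩ := toFn hO.ip
  obtain ⟨y, py, y0, yp, hy⟩ := toFn hO'.ip
  refine ⟨p, q, y, x, py, px, ?_, ?_, ?_, ?_, ?_, ?_, ?_, ?_, ?_, ?_⟩
  · rw [y0]; exact haA
  · rw [x0]; exact haA'
  · rw [yp]; exact hO'.inB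
  · rw [xq, yp]
  · intro i hi h
    exact py.inj i 0 hi (Nat.zero_le _) ((hO'.onlyA _ (hy i hi) h).trans y0.symm)
  · intro i hi h
    exact py.inj i p hi le_rfl ((hO'.onlyB _ (hy i hi) h).trans yp.symm)
  · intro i hi h
    exact px.inj i 0 hi (Nat.zero_le _) ((hO.onlyA _ (hx i hi) h).trans x0.symm)
  · intro i hi h
    exact px.inj i q hi le_rfl ((hO.onlyB _ (hx i hi) h).trans xq.symm)
  · intro k hk
    rw [y0]
    refine ⟨fun e => haR (e ▸ hx k hk), ?_⟩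
    rw [ha _ (hx k hk)]
    constructor
    · intro e
      exact px.inj k 0 hk (Nat.zero_le _) (e.trans x0.symm)
    · rintro rfl
      exact x0
  · intro k hk
    rw [x0]
    refine ⟨fun e => haR' (e ▸ hy k hk), ?_⟩
    rw [ha' _ (hy k hk)]
    constructor
    · intro e
      exact py.inj k 0 hk (Nat.zero_le _) (e.trans y0.symm)
    · rintro rfl
      exact y0

end Pool.Agent.H98.ER2
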