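import Pool.Agent.H66.ER2.Targets
import Pool.Agent.H66.ER2.Lib

/-!
# MP_816b90_co, row `SPV` (helper98): a vertex adjacent to both ends of a split prism
-/

set_option autoImplicit false

namespace Pool.Agent.H98.ER2

open Pool.Agent.H48.ER Pool.Agent.H52.ER2 Pool.Agent.H66.ER2

/-- the path from `a1` to `v` through the first neighbour of `v` on `L` -/
theorem mkD {V : Type} {G : SimpleGraph V} {l : ℕ} {a1 x v : V} {L : Set V}
    (h : IP G l a1 x L) (hv : v ∉ L) (hx : G.Adj v x) :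
    ∃ (k : ℕ) (D : Set V), IP G k a1 v D ∧ 1 ≤ k ∧ ∀ u ∈ D, u ≠ v → u ∈ L := by
  classical
  obtain ⟨g, hg, g0, gl, hL⟩ := Pool.Agent.H66.ER2.IP.pf h
  have hex : ∃ i, i ≤ l ∧ G.Adj v (g i) := ⟨l, le_rfl, by rw [gl]; exact hx⟩
  obtain ⟨hi1, hi2⟩ := Nat.find_spec hex
  have hmin : ∀ j, j < Nat.find hex → ¬ G.Adj v (g j) := by
    intro j hj e
    exact Nat.find_min hex hj ⟨by omega, e⟩
  generalize Nat.find hex = i at hi1 hi2 hmin
  have hgv : ∀ j, j ≤ l → g j ≠ v := by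
    intro j hj e
    apply hv
    rw [hL, ← e]
    exact mem_seg (Nat.zero_le _) hj
  let f : ℕ → V := fun j => if j ≤ i then g j else v
  have f1 : ∀ j, j ≤ i → f j = g j := fun j hj => by simp [f, hj]
  have f2 : ∀ j, ¬ j ≤ i → f j = v := fun j hj => by simp [f, hj]
  refine ⟨i + 1, {w | ∃ j, j ≤ i + 1 ∧ f j = w}, ⟨f, ?_, ?_, ?_, ?_, rfl⟩, by omega, ?_⟩
  · rw [f1 0 (Nat.zero_le _), g0]
  · rw [f2 (i + 1) (by omega)]
  · intro a b ha hb e
    by_cases h1 : a ≤ i <;> by_cases h2 : b ≤ i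
    · rw [f1 a h1, f1 b h2] at e
      exact hg.inj _ _ (by omega) (by omega) e
    · rw [f1 a h1, f2 b h2] at e
      exact absurd e (hgv a (by omega))
    · rw [f2 a h1, f1 b h2] at e
      exact absurd e.symm (hgv b (by omega))
    · omega
  · intro a b ha hb
    by_cases h1 : a ≤ i <;> by_cases h2 : b ≤ i
    · rw [f1 a h1, f1 b h2, hg.adj a b (by omega) (by omega)]
    · rw [f1 a h1, f2 b h2]
      constructor
      · intro e
        by_contra hne
        exact hmin a (by omega) e.symm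
      · intro e
        have : a = i := by omega
        rw [this]; exact hi2.symm
    · rw [f2 a h1, f1 b h2]
      constructor
      · intro e
        by_contra hne
        exact hmin b (by omega) e
      · intro e
        have : b = i := by omega
        rw [this]; exact hi2
    · rw [f2 a h1, f2 b h2]
      constructor
      · intro e; exact absurd e (G.loopless.irrefl v)
      · intro e; omega
  · rintro u ⟨j, hj, rfl⟩ hu
    by_cases h1 : j ≤ i
    · rw [f1 j h1, hL]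
      exact mem_seg (Nat.zero_le _) (by omega)
    · exact absurd (f2 j h1) hu

/-- the context of `ASD` on the a-side -/
theorem mkA {V : Type} {G : SimpleGraph V} {l r n m : ℕ} {a1 x b1 y a2 b2 a3 b3 v : V}
    {L R P Q : Set V} (h : SPr G l r n m a1 x b1 y a2 b2 a3 b3 L R P Q)
    (hv : v ∉ vS L R P Q) (hx : G.Adj v x) (hs : ∃ w ∈ P ∪ Q, G.Adj v w) :
    ∃ (k : ℕ) (D : Set V), ACx G k n m a1 v a2 b2 a3 b3 D P Q := by
  have hvL : v ∉ L := fun e => hv (Or.inl (Or.inl (Or.inl e)))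
  have hvP : v ∉ P := fun e => hv (Or.inl (Or.inr e))
  have hvQ : v ∉ Q := fun e => hv (Or.inr e)
  obtain ⟨k, D, h1, h2, h3⟩ := mkD h.ipL hvL hx
  refine ⟨k, D, h.cyc, h1, h2, ?_, ?_, ?_, ?_, hs⟩
  · rw [Set.disjoint_left]
    intro u hu hu'
    by_cases huv : u = v
    · rw [huv] at hu'
      exact hu'.elim hvP hvQ
    · have huL := h3 u hu huv
      exact hu'.elim (fun e => Set.disjoint_left.1 h.dLP huL e)
        (fun e => Set.disjoint_left.1 h.dLQ huL e)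
  · exact (h.eLP a1 h.a1_mem a2 h.a2_mem).2 ⟨rfl, rfl⟩
  · exact (h.eLQ a1 h.a1_mem a3 h.a3_mem).2 ⟨rfl, rfl⟩
  · intro u hu huv w hw e
    have huL := h3 u hu huv
    rcases hw with hw | hw
    · obtain ⟨e1, e2⟩ := (h.eLP u huL w hw).1 e
      exact ⟨e1, Or.inl e2⟩
    · obtain ⟨e1, e2⟩ := (h.eLQ u huL w hw).1 e
      exact ⟨e1, Or.inr e2⟩

/-- two different neighbours in the case `HTwo` -/
theorem two_of_HTwo {V : Type} {G : SimpleGraph V} {n m i j : ℕ} {c a2 b2 a3 b3 g g' : V}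
    {R1 R2 P Q : Set V} (h : HTwo G n m i j c a2 b2 a3 b3 g g' R1 R2 P Q) :
    g ∈ P ∪ Q ∧ g' ∈ P ∪ Q ∧ g ≠ g' ∧ G.Adj c g ∧ G.Adj c g' := by
  have hg : g ∈ R1 := h.ip1.right_mem
  have hg' : g' ∈ R2 := h.ip2.right_mem
  have h1 : g ∈ P ∪ Q := by rw [← h.un]; exact Or.inl hg
  have h2 : g' ∈ P ∪ Q := by rw [← h.un]; exact Or.inr hg'
  refine ⟨h1, h2, ?_, (h.nb g h1).2 (Or.inl rfl), (h.nb g' h2).2 (Or.inr rfl)⟩
  intro e
  exact Set.disjoint_left.1 h.dis hg (e ▸ hg')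

/-- the only neighbour is `a2` or `a3` -/
theorem oneSide {V : Type} {G : SimpleGraph V} (hASD : T_ASD) {k n m : ℕ}
    {a1 v a2 b2 a3 b3 g : V} {D P Q : Set V} (hno : NOH G)
    (h : ACx G k n m a1 v a2 b2 a3 b3 D P Q) (h2 : a2 ∈ P) (h3 : a3 ∈ Q)
    (hg : g ∈ P ∪ Q) (h1 : ∀ w ∈ P ∪ Q, G.Adj v w ↔ w = g) : g = a2 ∨ g = a3 := by
  rcases hASD V G k n m a1 v a2 b2 a3 b3 D P Q hno h with e | e | e | e
  · exact Or.inl ((e g hg).1 ((h1 g hg).2 rfl))
  · exact Or.inr ((e g hg).1 ((h1 g hg).2 rfl))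
  · rcases e with e | e | e
    · exact Or.inl ((h1 a2 (Or.inl h2)).1 e.2).symm
    · exact Or.inr ((h1 a3 (Or.inr h3)).1 e.2).symm
    · exact Or.inl ((h1 a2 (Or.inl h2)).1 e.1).symm
  · obtain ⟨i, j, g1, g2, R1, R2, e⟩ := e
    obtain ⟨t1, t2, t3, t4, t5⟩ := two_of_HTwo e
    exact absurd (((h1 g1 t1).1 t4).trans ((h1 g2 t2).1 t5).symm) t3

theorem pf_SPV (hHTR : T_HTR) (hASD : T_ASD) (hSPN : T_SPN) (hSPE : T_SPE) : T_SPV := by
  intro V G l r n m a1 x b1 y a2 b2 a3 b3 v L R P Q hno hop h hv hx hy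
  have hs := hSPN V G l r n m a1 x b1 y a2 b2 a3 b3 v L R P Q hno hop h hv hx hy
  have hv' : v ∉ vS R L P Q := by rw [vS_flip]; exact hv
  obtain ⟨ka, Da, hA⟩ := mkA h hv hx hs
  obtain ⟨kb, Db, hB⟩ := mkA h.flip hv' hy hs
  have hvPQ : v ∉ P ∪ Q := fun e => e.elim (fun e => hv (Or.inl (Or.inr e))) (fun e => hv (Or.inr e))
  have hab2 : a2 ≠ b2 := by
    intro e
    have hn := h.oP
    obtain ⟨g, hg, g0, gn, -⟩ := Pool.Agent.H66.ER2.IP.pf h.ipP
    have := hg.inj 0 n (Nat.zero_le _) le_rfl (by rw [g0, gn, e])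
    have := hn.pos
    omega
  have hab3 : a3 ≠ b3 := by
    intro e
    have hn := h.oQ
    obtain ⟨g, hg, g0, gn, -⟩ := Pool.Agent.H66.ER2.IP.pf h.ipQ
    have := hg.inj 0 m (Nat.zero_le _) le_rfl (by rw [g0, gn, e])
    have := hn.pos
    omega
  have hPQ : ∀ a ∈ P, ∀ b ∈ Q, a ≠ b := fun a ha b hb hab =>
    Set.disjoint_left.1 h.dPQ ha (hab ▸ hb)
  rcases hHTR V G n m v a2 b2 a3 b3 P Q h.cyc hvPQ hs with ⟨g, hg1, hg2, -⟩ |
    ⟨i, j, g, g', R1, R2, hT⟩ | ⟨g, g', hF⟩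
  · exfalso
    rcases oneSide hASD hno hA h.a2_mem h.a3_mem hg1 hg2 with e1 | e1 <;>
      rcases oneSide hASD hno hB h.b2_mem h.b3_mem hg1 hg2 with e2 | e2
    · exact hab2 (e1.symm.trans e2)
    · exact hPQ _ h.a2_mem _ h.b3_mem (e1.symm.trans e2)
    · exact hPQ _ h.b2_mem _ h.a3_mem (e2.symm.trans e1)
    · exact hab3 (e1.symm.trans e2)
  · exact Or.inr (hSPE V G l r n m i j a1 x b1 y a2 b2 a3 b3 v g g' L R P Q R1 R2 hno hop h hv
      hx hy hT)
  · obtain ⟨i, j, R1, R2, h1, h2, h3, h4, h5, h6, h7, h8⟩ := hF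
    have hgg : g ≠ g' := fun e => Set.disjoint_left.1 h5 h1.right_mem (e ▸ h2.right_mem)
    have hg : g ∈ P ∪ Q := h3 h1.right_mem
    have hg' : g' ∈ P ∪ Q := h4 h2.right_mem
    have ag : G.Adj v g := (h7 g h1.right_mem).2 rfl
    have ag' : G.Adj v g' := (h8 g' h2.right_mem).2 rfl
    rcases hASD V G ka n m a1 v a2 b2 a3 b3 Da P Q hno hA with e | e | e | e
    · exact absurd (((e g hg).1 ag).trans ((e g' hg').1 ag').symm) hgg
    · exact absurd (((e g hg).1 ag).trans ((e g' hg').1 ag').symm) hgg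
    · rcases hASD V G kb n m b1 v b2 a2 b3 a3 Db P Q hno hB with f | f | f | f
      · exact absurd (((f g hg).1 ag).trans ((f g' hg').1 ag').symm) hgg
      · exact absurd (((f g hg).1 ag).trans ((f g' hg').1 ag').symm) hgg
      · exact Or.inl ⟨e, f⟩
      · obtain ⟨i', j', g1, g2, S1, S2, f⟩ := f
        obtain ⟨c1, c2⟩ := hSPE V G r l n m i' j' b1 y a1 x b2 a2 b3 a3 v g1 g2 R L P Q S1 S2
          hno hop h.flip hv' hy hx f
        refine Or.inr ⟨c1, ?_⟩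
        rcases c2 with c | c | c | c
        · exact Or.inr (Or.inr (Or.inl c))
        · exact Or.inr (Or.inr (Or.inr c))
        · exact Or.inl c
        · exact Or.inr (Or.inl c)
    · obtain ⟨i', j', g1, g2, S1, S2, f⟩ := e
      exact Or.inr (hSPE V G l r n m i' j' a1 x b1 y a2 b2 a3 b3 v g1 g2 L R P Q S1 S2 hno hop h
        hv hx hy f)

end Pool.Agent.H98.ER2
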